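import Pool.Agent.Run7.h677.PS.Stm

/-!
# Project PS, piece PARB
-/

set_option autoImplicit false

namespace Pool.Agent.Run7.h677.PS

open Finset

namespace PARBaux

variable {α : Type} [Fintype α] [DecidableEq α] {d : ℕ}

omit [DecidableEq α] in
/-- coefficients of the points of a convex hull -/
theorem hull_iff (z : α → E d) (T : Finset α) (x : E d) :
    x ∈ convexHull ℝ (z '' (T : Set α)) ↔ ∃ w : α → ℝ, (∀ i, 0 ≤ w i) ∧
      (∀ i, i ∉ T → w i = 0) ∧ ∑ i, w i = 1 ∧ ∑ i, w i • z i = x := by
  classical
  constructor
  · intro hx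
    have h : convexHull ℝ (z '' (T : Set α)) ⊆ {x | ∃ w : α → ℝ, (∀ i, 0 ≤ w i) ∧
        (∀ i, i ∉ T → w i = 0) ∧ ∑ i, w i = 1 ∧ ∑ i, w i • z i = x} := by
      apply convexHull_min
      · rintro _ ⟨j, hj, rfl⟩
        refine ⟨Pi.single j 1, ?_, ?_, ?_, ?_⟩
        · intro i
          by_cases h : i = j
          · subst h; simp
          · simp [h]
        · intro i hi
          have : i ≠ j := fun h => hi (h ▸ hj)
          simp [this]
        · simp
        · simp [Pi.single_apply]
      · rintro x ⟨w, h1, h2, h3, h4⟩ y ⟨w', h1', h2', h3', h4'⟩ a b ha hb hab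
        refine ⟨fun i => a * w i + b * w' i, ?_, ?_, ?_, ?_⟩
        · intro i
          have := h1 i
          have := h1' i
          positivity
        · intro i hi
          show a * w i + b * w' i = 0
          rw [h2 i hi, h2' i hi]
          ring
        · rw [sum_add_distrib, ← mul_sum, ← mul_sum, h3, h3']
          linarith
        · simp only [add_smul, sum_add_distrib, mul_smul]
          rw [← smul_sum, ← smul_sum, h4, h4']
    exact h hx
  · rintro ⟨w, h1, h2, h3, h4⟩
    have h5 : ∑ i ∈ T, w i = 1 := by
      rw [← h3]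
      exact sum_subset (subset_univ _) fun i _ hi => h2 i hi
    have h6 : ∑ i ∈ T, w i • z i = x := by
      rw [← h4]
      exact sum_subset (subset_univ _) fun i _ hi => by rw [h2 i hi, zero_smul]
    rw [← h6]
    exact (convex_convexHull ℝ _).sum_mem (fun i _ => h1 i) h5
      fun i hi => subset_convexHull ℝ _ ⟨i, hi, rfl⟩

/-- signs -/
noncomputable def sg (S : Finset α) (i : α) : ℝ := if i ∈ S then 1 else -1

omit [Fintype α] in
theorem sg_sq (S : Finset α) (i : α) : sg S i * sg S i = 1 := by
  unfold sg
  split_ifs <;> norm_num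

/-- the signed linear map -/
noncomputable def LL (z : α → E d) (S : Finset α) : (α → ℝ) →ₗ[ℝ] ℝ × E d where
  toFun μ := (∑ i, sg S i * μ i, ∑ i, (sg S i * μ i) • z i)
  map_add' μ ν := by
    ext
    · simp only [Pi.add_apply, mul_add, sum_add_distrib, Prod.fst_add]
    · simp only [Pi.add_apply, mul_add, add_smul, sum_add_distrib, Prod.snd_add]
  map_smul' c μ := by
    have h : ∀ i, sg S i * (c * μ i) = c * (sg S i * μ i) := fun i => by ring
    ext
    · simp only [Pi.smul_apply, smul_eq_mul, h, ← mul_sum, RingHom.id_apply, Prod.smul_fst]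
    · simp only [Pi.smul_apply, smul_eq_mul, h, mul_smul, ← smul_sum, RingHom.id_apply,
        Prod.smul_snd]

theorem mem_ker (z : α → E d) (S : Finset α) (μ : α → ℝ) :
    μ ∈ LinearMap.ker (LL z S) ↔ ∑ i, sg S i * μ i = 0 ∧ ∑ i, (sg S i * μ i) • z i = 0 := by
  rw [LinearMap.mem_ker]
  exact Prod.ext_iff

theorem two_zeros (z : α → E d) (S : Finset α) (hc : Fintype.card α = d + 3)
    (hz : ∀ t : Finset α, t.card ≤ d + 1 → AffineIndependent ℝ (fun i : t => z i))
    {μ : α → ℝ} (hμ : μ ∈ LinearMap.ker (LL z S)) {i j : α} (hij : i ≠ j) (hi : μ i = 0)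
    (hj : μ j = 0) : μ = 0 := by
  obtain ⟨h1, h2⟩ := (mem_ker z S μ).1 hμ
  set t : Finset α := (univ.erase i).erase j with ht
  have htc : t.card ≤ d + 1 := by
    rw [ht, card_erase_of_mem (by simp [hij.symm]), card_erase_of_mem (mem_univ _), card_univ, hc]
    omega
  have hout : ∀ k, k ∉ t → μ k = 0 := by
    intro k hk
    rw [ht] at hk
    simp only [mem_erase, mem_univ, and_true, not_and, not_not] at hk
    by_cases hkj : k = j
    · rw [hkj, hj]
    · rw [hk hkj, hi]
  have h3 : ∑ k ∈ t, sg S k * μ k = 0 := by
    rw [← h1]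
    exact sum_subset (subset_univ _) fun k _ hk => by rw [hout k hk, mul_zero]
  have h4 : ∑ k ∈ t, (sg S k * μ k) • z k = 0 := by
    rw [← h2]
    exact sum_subset (subset_univ _) fun k _ hk => by rw [hout k hk, mul_zero, zero_smul]
  have h5 := affineIndependent_iff.1 (hz t htc) univ (fun k => sg S k * μ k)
    (by rw [← h3]; exact sum_coe_sort t (fun k => sg S k * μ k))
    (by rw [← h4]; exact sum_coe_sort t (fun k => (sg S k * μ k) • z k))
  funext k
  by_cases hk : k ∈ t
  · have h6 := h5 ⟨k, hk⟩ (mem_univ _)
    simp only at h6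
    have h7 : sg S k * (sg S k * μ k) = 0 := by rw [h6, mul_zero]
    rw [← mul_assoc, sg_sq, one_mul] at h7
    exact h7
  · exact hout k hk

theorem finrank_ker (z : α → E d) (S : Finset α) (hc : Fintype.card α = d + 3)
    (hz : ∀ t : Finset α, t.card ≤ d + 1 → AffineIndependent ℝ (fun i : t => z i)) :
    Module.finrank ℝ (LinearMap.ker (LL z S)) = 2 := by
  apply le_antisymm
  · obtain ⟨i, j, hij⟩ : ∃ i j : α, i ≠ j := by
      have : 1 < Fintype.card α := by omega
      exact Fintype.one_lt_card_iff.1 this
    let ev : LinearMap.ker (LL z S) →ₗ[ℝ] ℝ × ℝ :=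
      ((LinearMap.proj i).comp (LinearMap.ker (LL z S)).subtype).prod
        ((LinearMap.proj j).comp (LinearMap.ker (LL z S)).subtype)
    have hev : Function.Injective ev := by
      rw [← LinearMap.ker_eq_bot, LinearMap.ker_eq_bot']
      intro m hm
      have h1 : (m : α → ℝ) i = 0 := congrArg Prod.fst hm
      have h2 : (m : α → ℝ) j = 0 := congrArg Prod.snd hm
      exact Subtype.ext (two_zeros z S hc hz m.2 hij h1 h2)
    have := LinearMap.finrank_le_finrank_of_injective hev
    simpa using this
  · have h1 := LinearMap.finrank_range_add_finrank_ker (LL z S)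
    have h2 : Module.finrank ℝ (LinearMap.range (LL z S)) ≤ Module.finrank ℝ (ℝ × E d) :=
      Submodule.finrank_le _
    rw [Module.finrank_prod, Module.finrank_self, finrank_euclideanSpace, Fintype.card_fin] at h2
    rw [Module.finrank_fintype_fun_eq_card, hc] at h1
    omega

end PARBaux

open PARBaux in
/-- **PARB.** -/
theorem t_PARB : S_PARA → S_PARB := by
  intro hA d α _ _ z S hc hz
  have h := hA α (LinearMap.ker (LL z S)) (by omega) (finrank_ker z S hc hz) (by
    intro μ hμ hne i j hij hi hj
    exact hne (two_zeros z S hc hz hμ hij hi hj))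
  have hset : {v : α | (convexHull ℝ (z '' ((S.erase v : Finset α) : Set α)) ∩
      convexHull ℝ (z '' ((Sᶜ.erase v : Finset α) : Set α))).Nonempty} =
      {v : α | ∃ μ ∈ LinearMap.ker (LL z S), μ ≠ 0 ∧ (∀ i, 0 ≤ μ i) ∧ μ v = 0} := ?_
  · rw [hset]
    exact h
  ext v
  constructor
  · rintro ⟨x, hx1, hx2⟩
    obtain ⟨a, a1, a2, a3, a4⟩ := (hull_iff z _ x).1 hx1
    obtain ⟨b, b1, b2, b3, b4⟩ := (hull_iff z _ x).1 hx2
    have key : ∀ i, sg S i * (a i + b i) = a i - b i := by
      intro i
      unfold sg
      split_ifs with hi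
      · rw [b2 i (by simp [hi])]
        ring
      · rw [a2 i (by simp [hi])]
        ring
    refine ⟨fun i => a i + b i, ?_, ?_, ?_, ?_⟩
    · rw [mem_ker]
      constructor
      · simp only [key, sum_sub_distrib, a3, b3, sub_self]
      · simp only [key, sub_smul, sum_sub_distrib, a4, b4, sub_self]
    · intro h0
      have h1 : ∀ i, a i = 0 := by
        intro i
        have := congrFun h0 i
        simp only [Pi.zero_apply] at this
        linarith [a1 i, b1 i]
      simp [h1] at a3
    · intro i
      exact add_nonneg (a1 i) (b1 i)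
    · simp only
      rw [a2 v (by simp), b2 v (by simp), add_zero]
  · rintro ⟨μ, hμ, hne, hnn, hv⟩
    obtain ⟨h1, h2⟩ := (mem_ker z S μ).1 hμ
    set s := ∑ i, if i ∈ S then μ i else 0 with hs
    have hs' : ∑ i, (if i ∈ S then 0 else μ i) = s := by
      have : s - ∑ i, (if i ∈ S then 0 else μ i) = ∑ i, sg S i * μ i := by
        rw [hs, ← sum_sub_distrib]
        apply sum_congr rfl
        intro i _
        unfold sg
        split_ifs <;> ring
      linarith
    have hs0 : 0 ≤ s := by
      apply sum_nonneg
      intro i _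
      split_ifs
      · exact hnn i
      · exact le_rfl
    have hspos : 0 < s := by
      rcases hs0.eq_or_lt with h0 | h0
      · exfalso
        apply hne
        funext i
        have e1 := (sum_eq_zero_iff_of_nonneg (fun i _ => by
          split_ifs
          · exact hnn i
          · exact le_rfl)).1 (hs.symm.trans h0.symm) i (mem_univ i)
        have e2 := (sum_eq_zero_iff_of_nonneg (fun i _ => by
          split_ifs
          · exact le_rfl
          · exact hnn i)).1 (hs'.trans h0.symm) i (mem_univ i)
        by_cases hi : i ∈ S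
        · rw [if_pos hi] at e1
          exact e1
        · rw [if_neg hi] at e2
          exact e2
      · exact h0
    refine ⟨∑ i, ((if i ∈ S then μ i else 0) / s) • z i, ?_, ?_⟩
    · rw [hull_iff]
      refine ⟨fun i => (if i ∈ S then μ i else 0) / s, ?_, ?_, ?_, rfl⟩
      · intro i
        apply div_nonneg _ hspos.le
        split_ifs
        · exact hnn i
        · exact le_rfl
      · intro i hi
        simp only
        by_cases hiS : i ∈ S
        · have : i = v := by
            by_contra hne'
            exact hi (mem_erase.2 ⟨hne', hiS⟩)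
          rw [if_pos hiS, this, hv, zero_div]
        · rw [if_neg hiS, zero_div]
      · rw [← sum_div, ← hs, div_self hspos.ne']
    · rw [hull_iff]
      refine ⟨fun i => (if i ∈ S then 0 else μ i) / s, ?_, ?_, ?_, ?_⟩
      · intro i
        apply div_nonneg _ hspos.le
        split_ifs
        · exact le_rfl
        · exact hnn i
      · intro i hi
        simp only
        by_cases hiS : i ∈ S
        · rw [if_pos hiS, zero_div]
        · have : i = v := by
            by_contra hne'
            exact hi (mem_erase.2 ⟨hne', mem_compl.2 hiS⟩)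
          rw [if_neg hiS, this, hv, zero_div]
      · rw [← sum_div, hs', div_self hspos.ne']
      · have e1 : ∑ i, ((if i ∈ S then μ i else 0) / s) • z i -
            ∑ i, ((if i ∈ S then 0 else μ i) / s) • z i = (1 / s) • ∑ i, (sg S i * μ i) • z i := by
          rw [← sum_sub_distrib, smul_sum]
          apply sum_congr rfl
          intro i _
          rw [← sub_smul, smul_smul]
          congr 1
          unfold sg
          split_ifs <;> ring
        rw [h2, smul_zero, sub_eq_zero] at e1
        exact e1.symm

end Pool.Agent.Run7.h677.PS
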